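import Pool.Agent.H31.P2

set_option autoImplicit false

open Pool.Agent.H31 Topology

theorem Pool.Agent.Results.MP_f6153b_al.Neg.result :
    ∃ (G : Bool → Type) (_ : ∀ b, TopologicalSpace (G b)) (_ : ∀ b, AddCommGroup (G b)),
      (∀ b, ContinuousAdd (G b)) ∧
      (∀ b (U : ℕ → Set (G b)), Antitone U → (∀ n, IsOpen (U n) ∧ (U n).Nonempty) →
        (⋂ n, closure (-U n)).Nonempty) ∧
      (∃ U : ℕ → Set (G false × G true), Antitone U ∧ (∀ n, IsOpen (U n) ∧ (U n).Nonempty) ∧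
        ⋂ n, closure (-U n) = ∅) ∧
      ∃ U : ℕ → Set (∀ b, G b), Antitone U ∧ (∀ n, IsOpen (U n) ∧ (U n).Nonempty) ∧
        ⋂ n, closure (-U n) = ∅ := by
  obtain ⟨G, _, _, h1, h2, h3⟩ := P2.main
  exact ⟨G, _, _, h1, fun b U h h' => Cone.pc2 (h2 b) U h fun n => (h' n).2, P2.two h3, h3⟩
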